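import Pool.Agent.U875.AU.Aut
import Pool.Agent.U875.SW.Pack
import Pool.Agent.N410.FV.Ind
import Pool.Agent.Y335.FL.Main

/-!
# Exceptional vertices in a graph without nowhere-zero 5-flow
-/

set_option autoImplicit false
set_option linter.unusedSectionVars false

namespace Pool.Agent.U875.AU

open Finset Pool.Agent.TH676.Z Pool.Agent.Y335.FL Pool.Agent.Y358.IN Pool.Agent.R129.Ball
open Pool.Agent.U875.SP Pool.Agent.U875.TP Pool.Agent.U875.SW Pool.Agent.N410.FV

variable {V E : Type} [Fintype V] [DecidableEq V] [Fintype E] [DecidableEq E]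

/-- the flow around a circuit -/
theorem circ_flow {s t : E → V} {n : ℕ} {v : Fin (n + 2) → V} {e : Fin (n + 2) → E}
    (h : IsCircuit s t n v e) (π : V → V) :
    ∃ z : E → ZMod 5, (∀ x, bd (π ∘ s) (π ∘ t) z x = 0) ∧ (∀ f ∈ univ.image e, z f ≠ 0) ∧
      ∀ f, f ∉ univ.image e → z f = 0 := by
  classical
  obtain ⟨_, hinj, hends⟩ := h
  let sg : Fin (n + 2) → ZMod 5 := fun i => if s (e i) = v i then 1 else -1
  let z : E → ZMod 5 := fun f => ∑ i, if e i = f then sg i else 0
  have hz : ∀ i, z (e i) = sg i := by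
    intro i
    show ∑ j, (if e j = e i then sg j else 0) = sg i
    rw [sum_eq_single i]
    · rw [if_pos rfl]
    · intro j _ hj
      rw [if_neg (fun h => hj (hinj h))]
    · intro h; exact absurd (mem_univ _) h
  refine ⟨z, fun x => ?_, ?_, ?_⟩
  · unfold bd
    have h1 : ∀ f, ((if (π ∘ s) f = x then z f else 0) - (if (π ∘ t) f = x then z f else 0)) =
        ∑ i, if e i = f then ((if π (s f) = x then sg i else 0) -
          (if π (t f) = x then sg i else 0)) else 0 := by
      intro f
      show ((if π (s f) = x then (∑ i, if e i = f then sg i else 0) else 0) -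
        (if π (t f) = x then (∑ i, if e i = f then sg i else 0) else 0)) = _
      by_cases h2 : π (s f) = x <;> by_cases h3 : π (t f) = x
      · simp only [if_pos h2, if_pos h3, sub_self]
        simp
      · simp only [if_pos h2, if_neg h3, sub_zero]
      · simp only [if_neg h2, if_pos h3, zero_sub]
        rw [← sum_neg_distrib]
        refine sum_congr rfl fun i _ => ?_
        split_ifs <;> simp
      · simp only [if_neg h2, if_neg h3, sub_self]
        simp
    simp only [h1]
    rw [sum_comm]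
    have h2 : ∀ i, (∑ f, if e i = f then ((if π (s f) = x then sg i else 0) -
          (if π (t f) = x then sg i else 0)) else 0) =
        (if π (v i) = x then (1 : ZMod 5) else 0) - (if π (v (i + 1)) = x then 1 else 0) := by
      intro i
      rw [sum_ite_eq]
      simp only [mem_univ, if_true]
      rcases hends i with ⟨h3, h4⟩ | ⟨h3, h4⟩
      · have h5 : sg i = 1 := if_pos h3
        rw [h3, h4, h5]
      · by_cases h6 : s (e i) = v i
        · have h5 : sg i = 1 := if_pos h6
          have h7 : v i = v (i + 1) := h6.symm.trans h3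
          rw [h3, h4, h5, ← h7]
        · have h5 : sg i = -1 := if_neg h6
          rw [h3, h4, h5]
          split_ifs <;> simp
    simp only [h2]
    rw [sum_sub_distrib, sub_eq_zero]
    exact (Equiv.sum_comp (Equiv.addRight (1 : Fin (n + 2)))
      (fun i => if π (v i) = x then (1 : ZMod 5) else 0)).symm
  · intro f hf
    rw [mem_image] at hf
    obtain ⟨i, -, rfl⟩ := hf
    rw [hz]
    show (if s (e i) = v i then (1 : ZMod 5) else -1) ≠ 0
    split_ifs <;> decide
  · intro f hf
    show ∑ i, (if e i = f then sg i else 0) = 0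
    refine sum_eq_zero fun i _ => ?_
    rw [if_neg]
    intro h
    exact hf (mem_image.2 ⟨i, mem_univ _, h⟩)

/-- **Short circuits are contracted in a minimal quotient.** -/
theorem const_of_step (hc : St_contract) {s t : E → V} {π : V → V}
    (hM : MinC (π ∘ s) (π ∘ t)) {a b : V} (h : ShortStep s t a b) : π a = π b := by
  classical
  obtain ⟨n, v, e, i, hn, hcirc, hi⟩ := h
  by_contra hne
  obtain ⟨z, h1, h2, h3⟩ := circ_flow hcirc π
  have hcard : (univ.image e).card ≤ 11 := by
    refine card_image_le.trans ?_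
    rw [card_univ, Fintype.card_fin]
    omega
  have hflow : FlowOn (π ∘ s) (π ∘ t) ∅ (univ.image e) := by
    refine hM.crit _ ⟨e i, mem_image_of_mem _ (mem_univ _), ?_⟩
    show π (s (e i)) ≠ π (t (e i))
    rcases hi with ⟨h4, h5⟩ | ⟨h4, h5⟩
    · rw [h4, h5]; exact hne
    · rw [h4, h5]; exact Ne.symm hne
  refine hM.nf (trail hc circEx V E (π ∘ s) (π ∘ t) ∅ (univ.image e) z h1 h2
    (fun f _ hf => h3 f hf) hcard ?_)
  rwa [empty_union]

theorem closed_class (hc : St_contract) {s t : E → V} {π : V → V}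
    (hM : MinC (π ∘ s) (π ∘ t)) (y : V) : Closed s t (univ.filter (fun v => π v = y)) := by
  intro a b hab ha
  rw [mem_filter] at ha ⊢
  exact ⟨mem_univ _, (const_of_step hc hM hab).symm.trans ha.2⟩

/-- the exceptional vertex in a class with three boundary edges -/
theorem exc_class (hc : St_contract) {s t : E → V}
    (hcon : ∀ X : Finset V, boundary s t X = ∅ → X = ∅ ∨ X = univ) {π : V → V}
    (hM : MinC (π ∘ s) (π ∘ t)) {y : V} (hy : dg (π ∘ s) (π ∘ t) y = 3) :
    ∃ v, π v = y ∧ Exceptional s t v := by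
  have h1 := boundary_class s t π y
  rw [hy] at h1
  obtain ⟨v, hv, hv2⟩ := exists_exceptional hcon
    (X := univ.filter (fun v => π v = y)) ⟨closed_class hc hM y, by omega, by omega⟩
  exact ⟨v, (mem_filter.1 hv).2, hv2⟩

/-- **The tree in a minimal quotient.** -/
theorem core_min (hc : St_contract) {s t : E → V} (hM : MinC s t) (hx0 : ∃ x y, Adj s t x y)
    {d : ℕ} (hd : 4 ≤ d) (L : List (List (Fin 3))) (hL : L ≠ []) :
    ∃ f : List (Fin 3) → V,
      (∀ a b, IsVertex a → IsVertex b → ∀ k, Near s t k (f a) (f b) → sf a b ≤ k) ∧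
      (∀ w, IsVertex (w ++ [0]) → 3 ≤ dg s t (f w)) ∧
      (9 * d - 30) * L.length <
        10 * (d - 3) * (L.filter (fun w => dg s t (f w) < d)).length := by
  classical
  have h3 := threeC hc hM
  have hgi := girthC hc hM
  obtain ⟨x0, y0, hx⟩ := hx0
  let G : SimpleGraph V :=
    { Adj := Adj s t
      symm := ⟨fun a b h => GiAux.adj_symm h⟩
      loopless := ⟨fun a h => h.1 rfl⟩ }
  have hG : ∀ a b, G.Adj a b ↔ Adj s t a b := fun a b => Iff.rfl
  have h12 : ∀ (w : V) (c : G.Walk w w), c.IsCycle → 12 ≤ c.length :=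
    fun w c hc => Ord.cycle_len hgi G hG c hc
  have hNm : ∀ u v, u ∈ nb s t v ↔ Adj s t v u := by
    intro u v
    unfold nb
    rw [mem_filter]
    exact ⟨fun h => h.2, fun h => ⟨mem_univ _, h⟩⟩
  have hsym : ∀ u v, u ∈ nb s t v ↔ v ∈ nb s t u := by
    intro u v
    rw [hNm, hNm]
    exact ⟨fun h => GiAux.adj_symm h, fun h => GiAux.adj_symm h⟩
  have hdeg : ∀ v, (nb s t v).card = dg s t v :=
    fun v => le_antisymm (nb_le_dg s t v) (dg_le_nb hc hM v)
  have hN3 : ∀ v, (nb s t v).Nonempty → 3 ≤ (nb s t v).card := by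
    rintro v ⟨u, hu⟩
    rw [hdeg]
    exact Ord.three_dg h3 ((hNm _ _).1 hu)
  obtain ⟨f, hf, hval⟩ := tree_avg (N := nb s t) hsym hN3 ⟨x0, y0, (hNm _ _).2 hx⟩
    (fun v => if dg s t v < d then (1 : ℚ) else 0) L
  have hE : Emb G f := ⟨fun w c h => (hG _ _).2 ((hNm _ _).1 (hf.adj w c h)), hf.two, hf.ne⟩
  refine ⟨f, ?_, ?_, ?_⟩
  · intro a b ha hb k hk
    obtain ⟨q, hq⟩ := near_walk G hG hk
    exact (emb_dist h12 hE a b ha hb q).trans hq
  · intro w hw
    exact Ord.three_dg h3 ((hNm _ _).1 (hf.adj w 0 hw))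
  · have hw := weight hc hM ⟨_, _, hx⟩ hd
    rw [count_sum (fun w => dg s t (f w) < d) L] at hval
    have e1 : ∑ v, ((nb s t v).card : ℚ) = ((∑ v, dg s t v : ℕ) : ℚ) := by
      push_cast
      exact sum_congr rfl fun v _ => by rw [hdeg]
    have e2 : ∑ v, ((nb s t v).card : ℚ) * (if dg s t v < d then (1 : ℚ) else 0) =
        ((∑ v, (if dg s t v < d then dg s t v else 0) : ℕ) : ℚ) := by
      push_cast
      refine sum_congr rfl fun v _ => ?_
      rw [hdeg]
      split_ifs <;> simp
    rw [e1, e2] at hval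
    set D := ∑ v, dg s t v with hD
    set P := ∑ v, (if dg s t v < d then dg s t v else 0) with hP
    set m := (L.filter (fun w => dg s t (f w) < d)).length with hm
    have hval' : L.length * P ≤ D * m := by exact_mod_cast hval
    have hL0 : 0 < L.length := List.length_pos_iff.2 hL
    obtain ⟨k, rfl⟩ : ∃ k, d = k + 4 := ⟨d - 4, by omega⟩
    rw [show k + 4 - 3 = k + 1 by omega] at hw ⊢
    rw [show 9 * (k + 4) - 30 = 9 * k + 6 by omega]
    have h7 : 10 * (k + 1) * (L.length * P) ≤ 10 * (k + 1) * (D * m) :=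
      Nat.mul_le_mul_left _ hval'
    have h8 : (9 * (k + 4) * D + 36 * (k + 4)) * L.length ≤ (10 * (k + 1) * P + 30 * D) * L.length :=
      Nat.mul_le_mul_right _ hw
    have h9 : D * ((9 * k + 6) * L.length) < D * (10 * (k + 1) * m) := by
      have h10 : 0 < 36 * (k + 4) * L.length := by positivity
      nlinarith [h7, h8, h10]
    exact Nat.lt_of_mul_lt_mul_left h9

theorem near_of_walk {s t : E → V} (π : V → V) {m : ℕ} {u v : V} (h : HasWalk s t m u v) :
    Near (π ∘ s) (π ∘ t) m (π u) (π v) := by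
  obtain ⟨p, hp0, hpm, hp⟩ := h
  have h4 := near_of (π ∘ s) (π ∘ t) (fun i => π (p i)) m (by
    intro i hi
    obtain ⟨e, he⟩ := hp i hi
    refine ⟨e, ?_⟩
    rcases he with ⟨h5, h6⟩ | ⟨h5, h6⟩
    · exact Or.inl ⟨congrArg π h5, congrArg π h6⟩
    · exact Or.inr ⟨congrArg π h5, congrArg π h6⟩)
  simpa only [hp0, hpm] using h4

theorem near_zero {s t : E → V} {a b : V} (h : Near s t 0 a b) : a = b := by
  cases h
  rfl

theorem near_one {s t : E → V} {m : ℕ} {a b : V} (h : Near s t m a b) (hm : m ≤ 1) :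
    a = b ∨ Adj s t a b := by
  cases h with
  | refl => exact Or.inl rfl
  | @step m x y z h1 h2 =>
    have hm0 : m = 0 := by omega
    subst hm0
    rw [near_zero h1]
    exact Or.inr h2

/-- **Far exceptional vertices.** -/
theorem farExceptional_of (hc : St_contract) (ha : St_ahl) (s t : E → V)
    (hbr : Br s t ∅ ∅) (hn : ¬ FlowOn s t ∅ ∅)
    (hcon : ∀ X : Finset V, boundary s t X = ∅ → X = ∅ ∨ X = univ) :
    FarExceptional s t 126 1 ∧ FarExceptional s t 51 2 ∧ FarExceptional s t 11 3 ∧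
      FarExceptional s t 8 4 ∧ FarExceptional s t 3 5 ∧ FarExceptional s t 2 6 := by
  classical
  obtain ⟨s', t', ⟨π, rfl, rfl⟩, hM⟩ := exists_minC (ccR s t) s t ⟨id, rfl, rfl⟩ hbr hn
  by_cases hl : ∀ e, (π ∘ s) e = (π ∘ t) e
  · exact absurd (flow_of_loops hl) hM.nf
  push Not at hl
  obtain ⟨e0, he0⟩ := hl
  have hx : ∃ x y, Adj (π ∘ s) (π ∘ t) x y := ⟨_, _, he0, e0, Or.inl ⟨rfl, rfl⟩⟩
  -- from far cubic vertices of the quotient
  have key : ∀ (k D : ℕ) (y : Fin k → V), (∀ i, dg (π ∘ s) (π ∘ t) (y i) = 3) →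
      (∀ i j, i ≠ j → ∀ m, Near (π ∘ s) (π ∘ t) m (y i) (y j) → D ≤ m) →
      FarExceptional s t k D := by
    intro k D y hy hd
    have h1 : ∀ i, ∃ v, π v = y i ∧ Exceptional s t v := fun i => exc_class hc hcon hM (hy i)
    choose v hv1 hv2 using h1
    refine ⟨v, hv2, fun i j hij m hm => ?_⟩
    have h2 := near_of_walk π hm
    rw [hv1, hv1] at h2
    exact hd i j hij m h2
  have tree : ∀ (L : List (List (Fin 3))) (D : ℕ), L ≠ [] → (∀ w ∈ L, IsVertex w) → farL D L →
      FarExceptional s t (many 4 L.length) D := by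
    intro L D hL hv hp
    obtain ⟨f, hdist, h3, hcount⟩ := core_min hc hM hx (le_refl 4) L hL
    obtain ⟨x, hx1, hx2⟩ := of_pairwise (R := fun a b => D ≤ sf a b) (hp.filter _)
      (many_le (le_refl 4) hcount)
    refine key _ D (fun i => f (x i)) (fun i => ?_) (fun i j hij m hm => ?_)
    · obtain ⟨h4, h5⟩ := List.mem_filter.1 (hx1 i)
      have h6 := h3 (x i) (isVertex_zero (hv _ h4))
      have h7 : dg (π ∘ s) (π ∘ t) (f (x i)) < 4 := by simpa using h5
      omega
    · exact (hx2 i j hij).trans (hdist _ _ (hv _ (List.mem_filter.1 (hx1 i)).1)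
        (hv _ (List.mem_filter.1 (hx1 j)).1) m hm)
  refine ⟨?_, ?_, tree v18 3 (by decide) v18_ok.1 v18_ok.2, tree v13 4 (by decide) v13_ok.1 v13_ok.2,
    tree v4 5 (by decide) v4_ok.1 v4_ok.2, tree v3 6 (by decide) v3_ok.1 v3_ok.2⟩
  · have h126 := cubic126 hc ha hM hx
    obtain ⟨I, hI1, hI2⟩ := exists_subset_card_eq h126
    let y : Fin 126 → V := fun i => (I.equivFin.symm (Fin.cast hI2.symm i) : V)
    refine key 126 1 y (fun i => ?_) (fun i j hij m hm => ?_)
    · have h1 : y i ∈ I := (I.equivFin.symm (Fin.cast hI2.symm i)).2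
      exact (mem_filter.1 (hI1 h1)).2
    · by_contra h0
      have hm0 : m = 0 := by omega
      subst hm0
      have h2 : y i = y j := near_zero hm
      have h3 : I.equivFin.symm (Fin.cast hI2.symm i) = I.equivFin.symm (Fin.cast hI2.symm j) :=
        Subtype.ext h2
      have h4 := I.equivFin.symm.injective h3
      exact hij (Fin.ext (by simpa using congrArg Fin.val h4))
  · obtain ⟨I, hI1, -, hind, hIc⟩ := indepH hc ha hM hx 50 0 (by norm_num) (by norm_num) ∅ (by simp)
    obtain ⟨J, hJ1, hJ2⟩ := exists_subset_card_eq (show 51 ≤ I.card by omega)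
    let y : Fin 51 → V := fun i => (J.equivFin.symm (Fin.cast hJ2.symm i) : V)
    have hyJ : ∀ i, y i ∈ J := fun i => (J.equivFin.symm (Fin.cast hJ2.symm i)).2
    refine key 51 2 y (fun i => mem_Cv.1 (hI1 (hJ1 (hyJ i)))) (fun i j hij m hm => ?_)
    by_contra h0
    have hne : y i ≠ y j := by
      intro h2
      have h3 : J.equivFin.symm (Fin.cast hJ2.symm i) = J.equivFin.symm (Fin.cast hJ2.symm j) :=
        Subtype.ext h2
      have h4 := J.equivFin.symm.injective h3
      exact hij (Fin.ext (by simpa using congrArg Fin.val h4))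
    rcases near_one hm (by omega) with h1 | h1
    · exact hne h1
    · exact hind _ (hJ1 (hyJ i)) _ (hJ1 (hyJ j)) h1

end Pool.Agent.U875.AU
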