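import Pool.Agent.U875.AU.Defs

/-!
# Minimal sets with at most three boundary edges
-/

set_option autoImplicit false
set_option linter.unusedSectionVars false

namespace Pool.Agent.U875.AU

open Finset Pool.Agent.U875.SP Pool.Agent.U875.TP

variable {V E : Type} [Fintype V] [DecidableEq V] [Fintype E] [DecidableEq E] {s t : E → V}

theorem isEnds_symm {a b : V} {e : E} (h : IsEnds s t a b e) : IsEnds s t b a e := by
  rcases h with ⟨h1, h2⟩ | ⟨h1, h2⟩
  · exact Or.inr ⟨h1, h2⟩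
  · exact Or.inl ⟨h1, h2⟩

/-- images of ends -/
theorem IsAut.ends {σ : Equiv.Perm V} {τ : Equiv.Perm E} (h : IsAut s t σ τ) {a b : V} {e : E}
    (he : IsEnds s t a b e) : IsEnds s t (σ a) (σ b) (τ e) := by
  rcases he with ⟨h1, h2⟩ | ⟨h1, h2⟩
  · rw [← h1, ← h2]; exact h e
  · rw [← h1, ← h2]; exact isEnds_symm (h e)

theorem IsAut.inv {σ : Equiv.Perm V} {τ : Equiv.Perm E} (h : IsAut s t σ τ) :
    IsAut s t σ.symm τ.symm := by
  intro f
  have h1 := h (τ.symm f)
  rw [Equiv.apply_symm_apply] at h1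
  rcases h1 with ⟨h2, h3⟩ | ⟨h2, h3⟩
  · left
    rw [h2, h3, Equiv.symm_apply_apply, Equiv.symm_apply_apply]
    exact ⟨rfl, rfl⟩
  · right
    rw [h2, h3, Equiv.symm_apply_apply, Equiv.symm_apply_apply]
    exact ⟨rfl, rfl⟩

theorem IsAut.circ {σ : Equiv.Perm V} {τ : Equiv.Perm E} (h : IsAut s t σ τ) {n : ℕ}
    {v : Fin (n + 2) → V} {e : Fin (n + 2) → E} (hc : IsCircuit s t n v e) :
    IsCircuit s t n (σ ∘ v) (τ ∘ e) :=
  ⟨σ.injective.comp hc.1, τ.injective.comp hc.2.1, fun i => h.ends (hc.2.2 i)⟩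

theorem IsAut.step {σ : Equiv.Perm V} {τ : Equiv.Perm E} (h : IsAut s t σ τ) {a b : V}
    (hc : ShortStep s t a b) : ShortStep s t (σ a) (σ b) := by
  obtain ⟨n, v, e, i, hn, h1, h2⟩ := hc
  exact ⟨n, σ ∘ v, τ ∘ e, i, hn, h.circ h1, h.ends h2⟩

/-- no circuit with at most eleven edges crosses the boundary -/
def Closed (s t : E → V) (X : Finset V) : Prop := ∀ a b, ShortStep s t a b → (a ∈ X → b ∈ X)

theorem step_symm {a b : V} (h : ShortStep s t a b) : ShortStep s t b a := by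
  obtain ⟨n, v, e, i, hn, h1, h2⟩ := h
  exact ⟨n, v, e, i, hn, h1, isEnds_symm h2⟩

theorem Closed.chained {X : Finset V} (h : Closed s t X) {a b : V} (hab : Chained s t a b)
    (ha : a ∈ X) : b ∈ X := by
  induction hab with
  | refl => exact ha
  | tail _ h1 ih => exact h _ _ h1 ih

theorem Closed.sdiff {X Y : Finset V} (hX : Closed s t X) (hY : Closed s t Y) :
    Closed s t (X \ Y) := by
  intro a b hab ha
  rw [mem_sdiff] at ha ⊢
  exact ⟨hX a b hab ha.1, fun hb => ha.2 (hY b a (step_symm hab) hb)⟩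

theorem Closed.map {X : Finset V} (hX : Closed s t X) {σ : Equiv.Perm V} {τ : Equiv.Perm E}
    (h : IsAut s t σ τ) : Closed s t (X.map σ.toEmbedding) := by
  intro a b hab ha
  rw [mem_map] at ha ⊢
  obtain ⟨a', ha', rfl⟩ := ha
  have h1 := h.inv.step hab
  change ShortStep s t (σ.symm (σ a')) (σ.symm b) at h1
  rw [Equiv.symm_apply_apply] at h1
  exact ⟨σ.symm b, hX _ _ h1 ha', Equiv.apply_symm_apply σ b⟩

theorem mem_boundary {X : Finset V} {e : E} :
    e ∈ boundary s t X ↔ ¬ (s e ∈ X ↔ t e ∈ X) := by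
  unfold boundary
  rw [mem_filter]
  exact ⟨fun h => h.2, fun h => ⟨mem_univ _, h⟩⟩

/-- posimodularity -/
theorem posi (X Y : Finset V) : (boundary s t (X \ Y)).card + (boundary s t (Y \ X)).card ≤
    (boundary s t X).card + (boundary s t Y).card := by
  unfold boundary
  rw [card_filter, card_filter, card_filter, card_filter, ← sum_add_distrib, ← sum_add_distrib]
  refine sum_le_sum fun e _ => ?_
  simp only [mem_sdiff]
  by_cases h1 : s e ∈ X <;> by_cases h2 : t e ∈ X <;> by_cases h3 : s e ∈ Y <;>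
    by_cases h4 : t e ∈ Y <;> simp [h1, h2, h3, h4]

theorem mem_boundary_map {X : Finset V} {σ : Equiv.Perm V} {τ : Equiv.Perm E} (h : IsAut s t σ τ)
    (e : E) : τ e ∈ boundary s t (X.map σ.toEmbedding) ↔ e ∈ boundary s t X := by
  rw [mem_boundary, mem_boundary]
  have h1 : ∀ a, σ a ∈ X.map σ.toEmbedding ↔ a ∈ X := by
    intro a
    rw [mem_map]
    constructor
    · rintro ⟨b, hb, hb'⟩
      have : b = a := σ.injective hb'
      rwa [← this]
    · exact fun ha => ⟨a, ha, rfl⟩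
  rcases h e with ⟨h2, h3⟩ | ⟨h2, h3⟩
  · rw [h2, h3, h1, h1]
  · rw [h2, h3, h1, h1]
    exact not_congr ⟨fun h => h.symm, fun h => h.symm⟩

theorem boundary_map_card {X : Finset V} {σ : Equiv.Perm V} {τ : Equiv.Perm E}
    (h : IsAut s t σ τ) :
    (boundary s t (X.map σ.toEmbedding)).card = (boundary s t X).card := by
  have h1 : boundary s t (X.map σ.toEmbedding) = (boundary s t X).map τ.toEmbedding := by
    ext f
    rw [mem_map]
    constructor
    · intro hf
      refine ⟨τ.symm f, ?_, Equiv.apply_symm_apply τ f⟩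
      rw [← mem_boundary_map h, Equiv.apply_symm_apply]
      exact hf
    · rintro ⟨e, he, rfl⟩
      exact (mem_boundary_map h e).2 he
  rw [h1, card_map]

/-- closed sets with one, two or three boundary edges -/
def Small (s t : E → V) (X : Finset V) : Prop :=
  Closed s t X ∧ 1 ≤ (boundary s t X).card ∧ (boundary s t X).card ≤ 3

/-- minimal sets of this kind -/
def Minl (s t : E → V) (X : Finset V) : Prop :=
  Small s t X ∧ ∀ Y, Small s t Y → Y ⊆ X → Y = X

theorem exists_minl {X : Finset V} (h : Small s t X) : ∃ Y, Y ⊆ X ∧ Minl s t Y := by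
  classical
  have hex : ∃ n, ∃ Y, Y ⊆ X ∧ Small s t Y ∧ Y.card = n := ⟨_, X, Subset.refl _, h, rfl⟩
  obtain ⟨Y, hY1, hY2, hY3⟩ := Nat.find_spec hex
  refine ⟨Y, hY1, hY2, fun Z hZ hZY => ?_⟩
  refine eq_of_subset_of_card_le hZY ?_
  rw [hY3]
  exact Nat.find_min' hex ⟨Z, hZY.trans hY1, hZ, rfl⟩

/-- **Minimal sets are disjoint.** -/
theorem Minl.eq (hcon : ∀ X : Finset V, boundary s t X = ∅ → X = ∅ ∨ X = univ) {X Y : Finset V}
    (hX : Minl s t X) (hY : Minl s t Y) {a : V} (haX : a ∈ X) (haY : a ∈ Y) : X = Y := by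
  by_contra hne
  have h1 : ¬ X ⊆ Y := fun h => hne (hY.2 X hX.1 h)
  have h2 : ¬ Y ⊆ X := fun h => hne (hX.2 Y hY.1 h).symm
  have hpos := posi (s := s) (t := t) X Y
  have hX3 := hX.1.2.2
  have hY3 := hY.1.2.2
  have hne1 : ∀ Z W : Finset V, ¬ Z ⊆ W → a ∈ W → 1 ≤ (boundary s t (Z \ W)).card := by
    intro Z W hZW ha
    rw [Nat.one_le_iff_ne_zero]
    intro h0
    rcases hcon _ (card_eq_zero.1 h0) with h3 | h3
    · exact hZW (sdiff_eq_empty_iff_subset.1 h3)
    · have h4 : a ∈ Z \ W := by rw [h3]; exact mem_univ _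
      exact (mem_sdiff.1 h4).2 ha
  rcases Nat.lt_or_ge 3 (boundary s t (X \ Y)).card with h3 | h3
  · have h4 : (boundary s t (Y \ X)).card ≤ 3 := by omega
    have h5 := hY.2 (Y \ X) ⟨hY.1.1.sdiff hX.1.1, hne1 Y X h2 haX, h4⟩ sdiff_subset
    have h6 : a ∈ Y \ X := by rw [h5]; exact haY
    exact (mem_sdiff.1 h6).2 haX
  · have h5 := hX.2 (X \ Y) ⟨hX.1.1.sdiff hY.1.1, hne1 X Y h1 haY, h3⟩ sdiff_subset
    have h6 : a ∈ X \ Y := by rw [h5]; exact haX
    exact (mem_sdiff.1 h6).2 haY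

theorem Small.map {X : Finset V} (h : Small s t X) {σ : Equiv.Perm V} {τ : Equiv.Perm E}
    (hA : IsAut s t σ τ) : Small s t (X.map σ.toEmbedding) :=
  ⟨h.1.map hA, by rw [boundary_map_card hA]; exact h.2.1, by
    rw [boundary_map_card hA]; exact h.2.2⟩

theorem Minl.map {X : Finset V} (h : Minl s t X) {σ : Equiv.Perm V} {τ : Equiv.Perm E}
    (hA : IsAut s t σ τ) : Minl s t (X.map σ.toEmbedding) := by
  refine ⟨h.1.map hA, fun Y hY hYX => ?_⟩
  have h1 := h.2 _ (hY.map hA.inv) (by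
    intro a ha
    rw [mem_map] at ha
    obtain ⟨b, hb, rfl⟩ := ha
    have h2 := hYX hb
    rw [mem_map] at h2
    obtain ⟨c, hc, rfl⟩ := h2
    change σ.symm (σ c) ∈ X
    rw [Equiv.symm_apply_apply]
    exact hc)
  rw [← h1]
  ext a
  simp only [mem_map]
  constructor
  · intro ha
    refine ⟨σ.symm a, ⟨a, ha, rfl⟩, ?_⟩
    exact Equiv.apply_symm_apply σ a
  · rintro ⟨b, ⟨c, hc, rfl⟩, rfl⟩
    change σ (σ.symm c) ∈ Y
    rw [Equiv.apply_symm_apply]
    exact hc

/-- **A small closed set contains an exceptional vertex.** -/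
theorem exists_exceptional (hcon : ∀ X : Finset V, boundary s t X = ∅ → X = ∅ ∨ X = univ)
    {X : Finset V} (h : Small s t X) : ∃ v ∈ X, Exceptional s t v := by
  classical
  obtain ⟨Y, hYX, hY⟩ := exists_minl h
  obtain ⟨e, he⟩ := card_pos.1 hY.1.2.1
  have he' := mem_boundary.1 he
  -- the end of `e` in `Y`
  obtain ⟨v, w0, hv, hends⟩ : ∃ v w0, v ∈ Y ∧ w0 ∉ Y ∧ IsEnds s t v w0 e := by
    by_cases h1 : s e ∈ Y
    · exact ⟨s e, t e, h1, fun h2 => he' ⟨fun _ => h2, fun _ => h1⟩, Or.inl ⟨rfl, rfl⟩⟩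
    · have h2 : t e ∈ Y := by tauto
      exact ⟨t e, s e, h2, h1, Or.inr ⟨rfl, rfl⟩⟩
  refine ⟨v, hYX hv, fun W hW => ?_⟩
  refine le_trans ?_ hY.1.2.2
  let g : E → V := fun f => if s f ∈ Y then s f else t f
  refine le_trans (card_le_card ?_) (card_image_le (s := boundary s t Y) (f := g))
  intro w hw
  obtain ⟨hch, σ, τ, hA, hσ⟩ := hW w hw
  have hwY : w ∈ Y := hY.1.1.chained hch hv
  have hmap : Y.map σ.toEmbedding = Y :=
    (hY.map hA).eq hcon hY (a := w) (mem_map.2 ⟨v, hv, hσ⟩) hwY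
  have h1 : τ e ∈ boundary s t Y := by
    rw [← hmap]
    exact (mem_boundary_map hA e).2 he
  rw [mem_image]
  refine ⟨τ e, h1, ?_⟩
  have hw0 : σ w0 ∉ Y := by
    intro h2
    rw [← hmap, mem_map] at h2
    obtain ⟨b, hb, hb'⟩ := h2
    have : b = w0 := σ.injective hb'
    rw [this] at hb
    exact hends.1 hb
  have h2 := hA.ends hends.2
  rw [hσ] at h2
  show (if s (τ e) ∈ Y then s (τ e) else t (τ e)) = w
  rcases h2 with ⟨h3, h4⟩ | ⟨h3, h4⟩
  · rw [h3, if_pos hwY]
  · rw [h3, if_neg hw0, h4]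

theorem no_exceptional (h : TransitiveWithCircuit s t) (v : V) : ¬ Exceptional s t v := by
  classical
  obtain ⟨htr, n, x, e, h2, h9, hc⟩ := h
  intro hv
  obtain ⟨σ, τ, hA, hσ⟩ := htr (x 0) v
  have hstep : ∀ i, ShortStep s t (x i) (x (i + 1)) := fun i => ⟨n, x, e, i, h9, hc, hc.2.2 i⟩
  have hnat : ∀ (k : ℕ) (hk : k < n + 2), Chained s t (x 0) (x ⟨k, hk⟩) := by
    intro k
    induction k with
    | zero => exact fun _ => Relation.ReflTransGen.refl
    | succ k ih =>
      intro hk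
      refine (ih (by omega)).tail ?_
      have h3 := hstep ⟨k, by omega⟩
      have h4 : (⟨k, by omega⟩ : Fin (n + 2)) + 1 = ⟨k + 1, hk⟩ := by
        apply Fin.ext
        rw [Fin.val_add_one_of_lt' (by simpa using hk)]
      rwa [h4] at h3
  have hall : ∀ i, Chained s t (x 0) (x i) := fun i => hnat i.val i.isLt
  have hmap : ∀ i, Chained s t v (σ (x i)) := by
    intro i
    rw [← hσ]
    exact (hall i).lift σ (fun a b h4 => hA.step h4)
  have h3 := hv (univ.image (fun i => σ (x i))) (by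
    intro w hw
    rw [mem_image] at hw
    obtain ⟨i, -, rfl⟩ := hw
    exact ⟨hmap i, htr v (σ (x i))⟩)
  have hinj : Function.Injective (fun i => σ (x i)) := σ.injective.comp hc.1
  rw [card_image_of_injective _ hinj, card_univ, Fintype.card_fin] at h3
  omega

end Pool.Agent.U875.AU
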