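import Pool.Agent.U875.SP.Defs
import Pool.Agent.U875.TP.Defs

/-!
# Short circuits and automorphisms

A finite multigraph has the vertex set `V` and the edge set `E`; the ends of the edge `e` are `s e`
and `t e` (loops and parallel edges are allowed, the order of the ends plays no role).
-/

set_option autoImplicit false

namespace Pool.Agent.U875.AU

open Pool.Agent.U875.SP Pool.Agent.U875.TP

variable {V E : Type}

/-- The different edges `e i` join `v i` to `v (i + 1)`, where the vertices `v i` are different and the
indices `i` are taken modulo `n + 2`: a circuit with `n + 2` edges. -/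
def IsCircuit (s t : E → V) (n : ℕ) (v : Fin (n + 2) → V) (e : Fin (n + 2) → E) : Prop :=
  Function.Injective v ∧ Function.Injective e ∧ ∀ i, IsEnds s t (v i) (v (i + 1)) (e i)

/-- The vertices `a` and `b` are joined by an edge of a circuit with at most eleven edges. -/
def ShortStep (s t : E → V) (a b : V) : Prop :=
  ∃ (n : ℕ) (v : Fin (n + 2) → V) (e : Fin (n + 2) → E) (i : Fin (n + 2)), n ≤ 9 ∧
    IsCircuit s t n v e ∧ IsEnds s t a b (e i)

/-- The vertices `a` and `b` are joined by a walk all of whose edges are in circuits with at most eleven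
edges. -/
def Chained (s t : E → V) (a b : V) : Prop := Relation.ReflTransGen (ShortStep s t) a b

/-- The permutations `σ` of the vertices and `τ` of the edges form an automorphism. -/
def IsAut (s t : E → V) (σ : Equiv.Perm V) (τ : Equiv.Perm E) : Prop :=
  ∀ e, IsEnds s t (σ (s e)) (σ (t e)) (τ e)

/-- The vertex `v` is exceptional: it has at most three images `w` (`v` included) under automorphisms
which are joined to `v` by a walk all of whose edges are in circuits with at most eleven edges. -/
def Exceptional (s t : E → V) (v : V) : Prop :=
  ∀ W : Finset V, (∀ w ∈ W, Chained s t v w ∧ ∃ σ τ, IsAut s t σ τ ∧ σ v = w) → W.card ≤ 3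

/-- There are `k` exceptional vertices with pairwise distances at least `D`. -/
def FarExceptional (s t : E → V) (k D : ℕ) : Prop :=
  ∃ x : Fin k → V, (∀ i, Exceptional s t (x i)) ∧ ∀ i j, i ≠ j → Apart s t D (x i) (x j)

/-- Some automorphism maps `v` to `w`, for all vertices `v` and `w`; and there is a circuit with
`4, ..., 11` edges. -/
def TransitiveWithCircuit (s t : E → V) : Prop :=
  (∀ v w, ∃ σ τ, IsAut s t σ τ ∧ σ v = w) ∧
    ∃ (n : ℕ) (v : Fin (n + 2) → V) (e : Fin (n + 2) → E), 2 ≤ n ∧ n ≤ 9 ∧ IsCircuit s t n v e

end Pool.Agent.U875.AU
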